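import Pool.Agent.LPV.Stmts
import Pool.Agent.Helper50_LPK.GEG

/-!
# Squad LPV, row FIS (helper50): feature map of the kernel of degree `l`
-/

set_option autoImplicit false

noncomputable section

open MeasureTheory Filter Topology
open scoped RealInnerProductSpace

namespace Pool.Agent.LPV.H50

open Pool.Agent.LPK Pool.Agent.LPV Pool.Agent.LPK.H50G

/-- the coefficients as real numbers -/
def cz (z : List ℤ) (j : ℕ) : ℝ := ((z.getD j 0 : ℤ) : ℝ)

theorem rec_of (n l : ℕ) (z : List ℤ) (h : Hz n l z) : Rec n l (cz z) := by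
  intro j hj
  have h1 := h.2.2 j (by omega)
  have h2 := congrArg (fun t : ℤ => (t : ℝ)) h1
  unfold cz
  push_cast at h2
  linear_combination h2

theorem zk_eq (l : ℕ) (z : List ℤ) (A B H : ℝ) : zk l z A B H = Kg l (cz z) A B H := rfl

theorem pow_bound (t : ℝ) (ht : 0 ≤ t) (l : ℕ) : 1 + t ^ l ≤ 2 * (1 + t) ^ l := by
  have h1 : (1 : ℝ) ≤ (1 + t) ^ l := one_le_pow₀ (by linarith)
  have h2 : t ^ l ≤ (1 + t) ^ l := pow_le_pow_left₀ ht (by linarith) l
  linarith

/-- the coefficients vanish if the leading one does -/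
theorem zero_of (n l : ℕ) (z : List ℤ) (hn : 2 ≤ n) (h : Hz n l z) (h0 : z.getD 0 0 = 0) :
    ∀ j : ℕ, j < l / 2 + 1 → z.getD j 0 = 0
  | 0, _ => h0
  | j + 1, hj => by
    have h1 := h.2.2 j (by omega)
    rw [zero_of n l z hn h h0 j (by omega), zero_mul, add_zero] at h1
    rcases mul_eq_zero.1 h1 with h2 | h2
    · exact h2
    · exfalso
      have h3 : (2 * j + 2 : ℕ) ≤ l := by omega
      have h4 : 0 < (2 * ((j : ℤ) + 1)) * ((n : ℤ) + 2 * l - 2 * j - 4) := by
        refine mul_pos (by omega) (by omega)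
      omega

/-- **FIS** -/
theorem fis : FisStmt := by
  intro n l z hn hz
  rcases hz.2.1.lt_or_eq with h0 | h0
  · have hc0 : 0 < cz z 0 := by
      unfold cz
      exact_mod_cast h0
    obtain ⟨g, hg⟩ := gram (n := n) l (cz z) hc0 (rec_of n l z hz)
    set e := (Ms n l).equivFin
    refine ⟨(Ms n l).card, fun i x => g (e.symm i) x,
      √(∑ j ∈ Finset.range (l / 2 + 1), cz z j) * 2, fun i x => ?_, fun x y => ?_⟩
    · have h1 := gram_bound l (cz z) g hg (e.symm i) (e.symm i).2 x
      refine h1.trans ?_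
      rw [mul_assoc]
      exact mul_le_mul_of_nonneg_left (pow_bound _ (by positivity) l) (Real.sqrt_nonneg _)
    · rw [zk_eq, hg, ← Finset.sum_coe_sort]
      exact (Equiv.sum_comp e.symm fun m : Ms n l => g m x * g m y).symm
  · refine ⟨0, fun i _ => 0, 0, fun i => i.elim0, fun x y => ?_⟩
    rw [Finset.univ_eq_empty, Finset.sum_empty]
    unfold zk
    refine Finset.sum_eq_zero fun j hj => ?_
    rw [zero_of n l z hn hz h0.symm j (Finset.mem_range.1 hj)]
    simp

end Pool.Agent.LPV.H50
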