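import Pool.Agent.LPV.Stmts

/-!
# Squad LPV, row WPO (helper50): Poisson summation with half width
-/

set_option autoImplicit false

noncomputable section

open MeasureTheory Filter Topology
open scoped RealInnerProductSpace

namespace Pool.Agent.LPV.H50W

open Pool.Agent.LPK Pool.Agent.LPV

/-- Horner form as a sum -/
theorem e1_sum (s : List ℤ) (x : ℝ) :
    e1 s x = ∑ i ∈ Finset.range s.length, ((s.getD i 0 : ℤ) : ℝ) * x ^ i := by
  induction s with
  | nil => simp [e1]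
  | cons a s ih =>
    rw [e1, ih, List.length_cons, Finset.sum_range_succ', Finset.mul_sum]
    simp only [List.getD_cons_zero, List.getD_cons_succ, pow_zero, mul_one]
    rw [add_comm]
    congr 1
    refine Finset.sum_congr rfl fun i _ => ?_
    ring

theorem e3_dbl (s : List ℤ) (A : ℝ) : e3 (dbl s) A 0 0 = e1 s (2 * A) := by
  have h : e3 (dbl s) A 0 0 = ((List.range s.length).map fun i =>
      ((s.getD i 0 : ℤ) : ℝ) * (2 * A) ^ i).sum := by
    unfold e3 dbl
    rw [List.map_map]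
    congr 1
    refine List.map_congr_left fun i _ => ?_
    simp only [Function.comp_apply, pow_zero, mul_one]
    push_cast
    rw [mul_pow]
    ring
  rw [h, e1_sum]
  induction s.length with
  | zero => simp
  | succ k ih =>
    rw [List.range_succ, List.map_append, List.sum_append, ih, Finset.sum_range_succ]
    simp

/-- the scaled bases -/
theorem du_scale (n : ℕ) (hn : Even n) (κ : ℝ) (b b' : Fin n → V n) (hD : Du κ b b') :
    Du (κ * rr n) (fun i => (√2)⁻¹ • b i) (fun i => √2 • b' i) := by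
  have h2 : (0 : ℝ) < √2 := Real.sqrt_pos.2 (by norm_num)
  have hr : 0 < rr n := by
    unfold rr
    positivity
  refine ⟨mul_pos hD.pos hr, fun i j => ?_, ?_⟩
  · rw [← hD.dual i j, real_inner_smul_left, real_inner_smul_right, ← mul_assoc,
      inv_mul_cancel₀ h2.ne', one_mul]
  · have h3 : (Matrix.of fun i j => ((√2)⁻¹ • b i) j) = (√2)⁻¹ • (Matrix.of fun i j => b i j) := by
      ext i j
      simp
    have h4 : ((√2)⁻¹ : ℝ) ^ 2 = 2⁻¹ := by
      rw [inv_pow, Real.sq_sqrt (by norm_num)]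
    have h5 : rr n ^ 2 = (2⁻¹ : ℝ) ^ n := by
      obtain ⟨m, hm⟩ := hn
      have hm2 : n / 2 = m := by omega
      unfold rr
      rw [hm2, hm, one_div, inv_pow, ← pow_mul, inv_pow, mul_two]
    rw [h3, Matrix.det_smul, Fintype.card_fin, mul_pow, hD.vol, ← pow_mul, mul_comm n 2, pow_mul, h4,
      mul_pow κ (rr n) 2, h5]
    ring

theorem pt_smul {n : ℕ} (t : ℝ) (b : Fin n → V n) (a : Fin n → ℤ) :
    pt (fun i => t • b i) a = t • pt b a := by
  rw [pt, pt, Finset.smul_sum]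
  refine Finset.sum_congr rfl fun i _ => ?_
  rw [smul_comm]

/-- **WPO** -/
theorem wpo (_dua : DuaStmt) (plm : PlmStmt) : WpoStmt := by
  intro n hn κ b b' hD s
  have h2 : (0 : ℝ) < √2 := Real.sqrt_pos.2 (by norm_num)
  have hD2 := du_scale n hn κ b b' hD
  have hev : Ev (dbl s) := by
    intro t ht _
    unfold dbl at ht
    rw [List.mem_map] at ht
    obtain ⟨i, _, rfl⟩ := ht
    rfl
  have h := plm n (κ * rr n) _ _ hD2 (dbl s) hev 0
  have h3 : ∀ a : Fin n → ℤ, ‖pt (fun i => (√2)⁻¹ • b i) a‖ ^ 2 = ‖pt b a‖ ^ 2 / 2 := by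
    intro a
    rw [pt_smul, norm_smul, mul_pow, Real.norm_eq_abs, sq_abs, inv_pow, Real.sq_sqrt (by norm_num)]
    ring
  have h4 : ∀ a : Fin n → ℤ, ‖pt (fun i => √2 • b' i) a‖ ^ 2 = 2 * ‖pt b' a‖ ^ 2 := by
    intro a
    rw [pt_smul, norm_smul, mul_pow, Real.norm_eq_abs, sq_abs, Real.sq_sqrt (by norm_num)]
  have h5 : ∀ a : Fin n → ℤ, e3 (dbl s) (‖pt (fun i => (√2)⁻¹ • b i) a‖ ^ 2) (‖(0 : V n)‖ ^ 2)
      ⟪pt (fun i => (√2)⁻¹ • b i) a, (0 : V n)⟫ * G (pt (fun i => (√2)⁻¹ • b i) a) = WH s (pt b a) := by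
    intro a
    rw [inner_zero_right, norm_zero, zero_pow two_ne_zero, e3_dbl]
    unfold G WH
    rw [h3]
    congr 2 <;> ring
  have h6 : ∀ c : Fin n → ℤ, e3 (T3 n (dbl s)) (‖pt (fun i => √2 • b' i) c‖ ^ 2) (‖(0 : V n)‖ ^ 2)
      ⟪pt (fun i => √2 • b' i) c, (0 : V n)⟫ * G (pt (fun i => √2 • b' i) c) =
      e3 (T3 n (dbl s)) (2 * ‖pt b' c‖ ^ 2) 0 0 * Real.exp (-‖pt b' c‖ ^ 2) := by
    intro c
    rw [inner_zero_right, norm_zero, zero_pow two_ne_zero]
    unfold G
    rw [h4]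
    congr 2
    ring
  simp only [h5, h6] at h
  rw [← h]
  ring

end Pool.Agent.LPV.H50W
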